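import Pool.Agent.V11131.PosComp7

/-!
# MP_a554a0_an: unital C*-algebras all of whose completable graphs are cluster graphs

For a nonzero unital C*-algebra `A`: every graph in `G(A)` is a disjoint union of complete graphs
iff `M_3(A)` is not an SAW*-algebra.  Moreover the following are equivalent: `K_3^{(0)} ∈ G(A)`;
Douglas factorization in `A`; `M_3(A)` is SAW*; all `M_n(A)` are SAW*; `G(A)` is the class of
chordal graphs.
-/

namespace Pool.Agent.Results.MP_a554a0_an.UnitalCharacterization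

open Pool.Agent.V11131.PosComp

universe u

theorem result (A : Type u) [CStarAlgebra A] [PartialOrder A] [StarOrderedRing A]
    [Nontrivial A] :
    ((∀ (n : ℕ) (Γ : SimpleGraph (Fin n)), InG A Γ → IsCluster Γ) ↔
      ¬ IsSAW (CStarMatrix (Fin 3) (Fin 3) A)) ∧
    List.TFAE [
      InG A pathThree,
      ∀ x y : A, star x * x ≤ star y * y → ∃ z : A, x = z * y ∧ ‖z‖ ≤ 1,
      IsSAW (CStarMatrix (Fin 3) (Fin 3) A),
      ∀ n : ℕ, IsSAW (CStarMatrix (Fin n) (Fin n) A),
      ∀ (n : ℕ) (Γ : SimpleGraph (Fin n)), InG A Γ ↔ Chordal Γ] := by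
  have hD : Douglas A ↔ ∀ x y : A, star x * x ≤ star y * y → ∃ z : A, x = z * y ∧ ‖z‖ ≤ 1 := by
    unfold Douglas
    constructor
    · intro h x y hxy
      obtain ⟨z, h1, h2⟩ := h x y hxy
      exact ⟨z, h1, (contr_iff z).1 h2⟩
    · intro h x y hxy
      obtain ⟨z, h1, h2⟩ := h x y hxy
      exact ⟨z, h1, (contr_iff z).2 h2⟩
  have htfae : List.TFAE [
      InG A pathThree,
      ∀ x y : A, star x * x ≤ star y * y → ∃ z : A, x = z * y ∧ ‖z‖ ≤ 1,
      IsSAW (CStarMatrix (Fin 3) (Fin 3) A),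
      ∀ n : ℕ, IsSAW (CStarMatrix (Fin n) (Fin n) A),
      ∀ (n : ℕ) (Γ : SimpleGraph (Fin n)), InG A Γ ↔ Chordal Γ] := by
    tfae_have 1 → 2 := fun h => hD.1 (douglas_of_pathThree h)
    tfae_have 2 → 4 := fun h n => isSAW_of_douglas (douglas_matrix (hD.2 h) (Fin n))
    tfae_have 4 → 3 := fun h => h 3
    tfae_have 3 → 2 := fun h => hD.1 (douglas_of_isSAW h)
    tfae_have 2 → 5 := fun h n Γ => ⟨chordal_of_inG Γ, inG_of_chordal (hD.2 h) Γ⟩
    tfae_have 5 → 1 := fun h => (h 3 pathThree).2 pathThree_chordal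
    tfae_finish
  refine ⟨?_, htfae⟩
  have h13 : InG A pathThree ↔ IsSAW (CStarMatrix (Fin 3) (Fin 3) A) := htfae.out 0 2
  rw [← h13]
  constructor
  · intro h h3
    have := h 3 pathThree h3 0 2
      ((SimpleGraph.Adj.reachable (show pathThree.Adj 0 1 by simp [pathThree])).trans
        (SimpleGraph.Adj.reachable (show pathThree.Adj 1 2 by simp [pathThree]))) (by decide)
    simp [pathThree] at this
  · intro h n Γ hΓ
    exact (main_not h Γ).1 hΓ

end Pool.Agent.Results.MP_a554a0_an.UnitalCharacterization
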